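import Pool.Agent.X86.TH.Data

/-! # The `T₄`-hull iteration of a finite set need not terminate -/

set_option autoImplicit false

open Set

namespace Pool.Agent.Results.MP_9768d1_an.NoTermination

open Pool.Agent.X86.TH

lemma mem_seg_step {K : Set Tri} {i : ℕ} {A B q : Tri} (hA : A ∈ iter K i) (hB : B ∈ iter K i)
    (hr : RankOne (B - A)) (hq : q ∈ segment ℝ A B) : q ∈ iter K (i + 1) :=
  Or.inr ⟨A, hA, B, hB, hr, hq⟩

lemma main_mem (n : ℕ) : ∀ i, main i ∈ iter K0 n ∧ main i - (0, 0, 1) ∈ iter K0 n := by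
  induction n with
  | zero => exact fun i => ⟨Or.inl (Or.inl ⟨i, rfl⟩), Or.inl (Or.inr ⟨i, rfl⟩)⟩
  | succ n ih =>
    intro i
    have hr : RankOne (main i - (main i - (0, 0, 1))) := by
      rw [sub_sub_cancel]
      exact ⟨by simp [Prod.ext_iff], by simp⟩
    exact ⟨mem_seg_step (ih i).2 (ih i).1 hr (right_mem_segment _ _ _),
      mem_seg_step (ih i).2 (ih i).1 hr (left_mem_segment _ _ _)⟩

/-- one move along the loop -/
lemma move {n : ℕ} {x y z : ℝ} (h : (x, y, z) ∈ iter K0 n) (i : Fin 6) {X Y Z : ℝ}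
    (hm : main i = (X, Y, Z)) (hne : (X - x, Y - y, Z - z) ≠ ((0, 0, 0) : Tri))
    (h0 : (X - x) * (Y - y) = 0) {t : ℝ} (ht : 0 ≤ t) (ht1 : t ≤ 1) {x' y' z' : ℝ}
    (hx : (1 - t) * x + t * X = x') (hy : (1 - t) * y + t * Y = y')
    (hz : (1 - t) * z + t * Z = z') : (x', y', z') ∈ iter K0 (n + 1) := by
  have hK := (main_mem n i).1
  rw [hm] at hK
  refine mem_seg_step h hK ⟨?_, ?_⟩ ⟨1 - t, t, by linarith, ht, by ring, ?_⟩
  · simpa using hne
  · simpa using h0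
  · simp only [Prod.smul_mk, Prod.mk_add_mk, smul_eq_mul]
    rw [hx, hy, hz]

lemma main_eq (i : Fin 6) (a b : ℕ) (c : ℤ) (ha : (kx i : ℕ) = a) (hb : (ky i : ℕ) = b)
    (hc : U (kx i) (ky i) = c) : main i = ((a : ℝ) - 1, (b : ℝ) - 1, (c : ℝ)) := by
  unfold main
  rw [ha, hb, hc]

lemma round {n : ℕ} {s : ℝ} (h : ((0:ℝ), (0:ℝ), -s) ∈ iter K0 n) :
    ((0:ℝ), (0:ℝ), -(s / 216)) ∈ iter K0 (n + 6) := by
  have m0 : main 0 = (4, 0, 0) := by
    rw [main_eq 0 5 1 (0) (by decide) (by decide) (by decide)]; norm_num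
  have m1 : main 1 = (3, 2, 0) := by
    rw [main_eq 1 4 3 (0) (by decide) (by decide) (by decide)]; norm_num
  have m2 : main 2 = (1, 1, 4) := by
    rw [main_eq 2 2 2 (4) (by decide) (by decide) (by decide)]; norm_num
  have m3 : main 3 = (2, 4, 2) := by
    rw [main_eq 3 3 5 (2) (by decide) (by decide) (by decide)]; norm_num
  have m4 : main 4 = (-1, 2, -1) := by
    rw [main_eq 4 0 3 (-1) (by decide) (by decide) (by decide)]; norm_num
  have m5 : main 5 = (0, -1, 0) := by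
    rw [main_eq 5 1 0 (0) (by decide) (by decide) (by decide)]; norm_num
  have s1 : ((3:ℝ), (0:ℝ), -(s / 4)) ∈ iter K0 (n + 1) :=
    move h 0 m0 (by simp) (by ring) (t := 3 / 4) (by norm_num) (by norm_num) (by ring) (by ring)
      (by ring)
  have s2 : ((3:ℝ), (1:ℝ), -(s / 8)) ∈ iter K0 (n + 1 + 1) :=
    move s1 1 m1 (by simp) (by ring) (t := 1 / 2) (by norm_num) (by norm_num) (by ring)
      (by ring) (by ring)
  have s3 : ((2:ℝ), (1:ℝ), 2 - s / 16) ∈ iter K0 (n + 1 + 1 + 1) :=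
    move s2 2 m2 (by norm_num) (by ring) (t := 1 / 2) (by norm_num) (by norm_num) (by ring)
      (by ring) (by ring)
  have s4 : ((2:ℝ), (2:ℝ), 2 - s / 24) ∈ iter K0 (n + 1 + 1 + 1 + 1) :=
    move s3 3 m3 (by norm_num) (by ring) (t := 1 / 3) (by norm_num) (by norm_num) (by ring)
      (by ring) (by ring)
  have s5 : ((0:ℝ), (2:ℝ), -(s / 72)) ∈ iter K0 (n + 1 + 1 + 1 + 1 + 1) :=
    move s4 4 m4 (by norm_num) (by ring) (t := 2 / 3) (by norm_num) (by norm_num) (by ring)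
      (by ring) (by ring)
  exact move s5 5 m5 (by norm_num) (by ring) (t := 2 / 3) (by norm_num) (by norm_num) (by ring)
    (by ring) (by ring)

lemma approach (n : ℕ) : ((0:ℝ), (0:ℝ), -((1 / 216 : ℝ) ^ n)) ∈ iter K0 (6 * n) := by
  induction n with
  | zero =>
    rw [pow_zero]
    exact Or.inr rfl
  | succ n ih =>
    have h := round ih
    have e : (1 / 216 : ℝ) ^ n / 216 = (1 / 216) ^ (n + 1) := by rw [pow_succ]; ring
    rw [e] at h
    exact h

/-- **The iteration need not terminate:** there is a finite set `K` of upper triangular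
`2 × 2` matrices such that for every `N` the union of `K⁽⁰⁾, …, K⁽ᴺ⁾` is not the
`T₄`-convex hull `⋃ᵢ K⁽ⁱ⁾`. -/
theorem _root_.Pool.Agent.Results.MP_9768d1_an.NoTermination.result :
    ∃ K : Set Tri, K.Finite ∧ ∀ N : ℕ, (⋃ i ≤ N, iter K i) ≠ ⋃ i, iter K i := by
  refine ⟨K0, K0_finite, fun N hN => ?_⟩
  have key : ∀ n : ℕ, (1 / 324 : ℝ) ^ N * 4 ≤ 860 * (1 / 216) ^ n := by
    intro n
    have h1 : ((0:ℝ), (0:ℝ), -((1 / 216 : ℝ) ^ n)) ∈ ⋃ i, iter K0 i :=
      mem_iUnion.mpr ⟨_, approach n⟩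
    rw [← hN] at h1
    simp only [mem_iUnion] at h1
    obtain ⟨i, hi, h2⟩ := h1
    obtain ⟨j, hj⟩ := iter_sub K0_sub i h2
    rw [F_origin] at hj
    have h3 : (4:ℝ) ≤ (w j 1 1 : ℝ) := by exact_mod_cast (w_origin j).1
    have h4 : (1 / 324 : ℝ) ^ N ≤ (1 / 324) ^ i :=
      pow_le_pow_of_le_one (by norm_num) (by norm_num) hi
    have h5 : (1 / 324 : ℝ) ^ i * 4 ≤ (1 / 324) ^ i * (w j 1 1 : ℝ) :=
      mul_le_mul_of_nonneg_left h3 (by positivity)
    linarith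
  have h0 : (0:ℝ) < (1 / 324 : ℝ) ^ N * 4 / 860 := by positivity
  obtain ⟨n, hn⟩ := exists_pow_lt_of_lt_one h0 (show (1 / 216 : ℝ) < 1 by norm_num)
  have := key n
  rw [lt_div_iff₀ (by norm_num)] at hn
  linarith

end Pool.Agent.Results.MP_9768d1_an.NoTermination
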